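import Pool.Agent.helper80.HM.SpecA

/-! # Project hm (MP_069684_lc), row STA: one stage -/

set_option autoImplicit false

namespace Pool.Agent.HM

open Finset Pool.Agent.helper33.Mod

/-- STA. -/
theorem STA (hRS : RS_stmt) : STA_stmt := by
  intro M c D1 D2 P Bad ε hc hε hdisj hdep hb
  have hcM : (0 : ℝ) < (c : ℝ) ^ M := by positivity
  rw [cn_split P Bad]
  have h1 : cn (fun h => P h ∧ Bad h) ≤ cn Bad := cn_mono fun _ h => h.2
  have hbad : ∀ h1 h2 : Fin M → Fin c, Bad (mix D2 h1 h2) ↔ Bad h1 := by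
    intro h1 h2
    refine hdep _ _ fun v hv => mix_not_mem ?_
    exact Finset.disjoint_left.mp hdisj hv
  have h2 := hRS D2 (fun h => P h ∧ ¬ Bad h)
  have h3 : ∑ h0 : Fin M → Fin c, cn (fun h => P (mix D2 h0 h) ∧ ¬ Bad (mix D2 h0 h)) ≤
      ∑ _h0 : Fin M → Fin c, ε := by
    refine Finset.sum_le_sum fun h0 _ => ?_
    by_cases hB : Bad h0
    · have h4 : cn (fun h => P (mix D2 h0 h) ∧ ¬ Bad (mix D2 h0 h)) ≤ cn (fun _ : Fin M → Fin c => False) :=
        cn_mono fun h hh => hh.2 ((hbad h0 h).mpr hB)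
      have h5 : cn (fun _ : Fin M → Fin c => False) = 0 := by
        unfold cn
        exact Finset.sum_eq_zero fun _ _ => ind_false not_false
      linarith
    · exact (cn_mono fun h hh => hh.1).trans (hb h0 hB)
  rw [h2, Finset.sum_const, Finset.card_univ, Fintype.card_fun, Fintype.card_fin, Fintype.card_fin,
    nsmul_eq_mul] at h3
  push_cast at h3
  have h6 := le_of_mul_le_mul_left h3 hcM
  linarith

end Pool.Agent.HM
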